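import Pool.Agent.H48.RK.Defs

/-!
# GRID: separation of a normalised disc and almost orthogonality of its values on the grid
-/

set_option autoImplicit false

namespace Pool.Agent.H77.RK

open Metric Set Pool.Agent.H48.RK
open scoped BigOperators ComplexConjugate

variable {m : ℕ} {h : ℂ → E m}

theorem ball_sub {t : ℂ} (ht : ‖t‖ ≤ 1 / 12) :
    closedBall t (91 / 100) ⊆ ball (0 : ℂ) 1 := by
  intro z hz
  rw [mem_closedBall, dist_eq_norm] at hz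
  rw [mem_ball, dist_zero_right]
  have h1 : ‖z‖ ≤ ‖z - t‖ + ‖t‖ := by
    have := norm_add_le (z - t) t
    rwa [sub_add_cancel] at this
  linarith

theorem mem_unit {t : ℂ} (ht : ‖t‖ ≤ 1 / 12) : t ∈ ball (0 : ℂ) 1 := by
  rw [mem_ball, dist_zero_right]; linarith

theorem diffAt (hd : Disc h) {t : ℂ} (ht : ‖t‖ ≤ 1 / 12) : DifferentiableAt ℂ h t :=
  hd.diff.differentiableAt (isOpen_ball.mem_nhds (mem_unit ht))

theorem diffAt' (hd : Disc h) {t : ℂ} (ht : ‖t‖ ≤ 1 / 12) : DifferentiableAt ℂ (deriv h) t :=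
  (hd.diff.deriv isOpen_ball).differentiableAt (isOpen_ball.mem_nhds (mem_unit ht))

theorem deriv2 (hd : Disc h) {t : ℂ} (ht : ‖t‖ ≤ 1 / 12) :
    ‖deriv (deriv h) t‖ ≤ 145 / 100 := by
  have h1 : DiffContOnCl ℂ (fun z => h z - h 0) (ball t (91 / 100)) :=
    (hd.diff.sub_const (h 0)).diffContOnCl_ball (ball_sub ht)
  have h2 : ∀ z ∈ sphere t (91 / 100 : ℝ), ‖h z - h 0‖ ≤ 3 / 5 := fun z hz =>
    hd.le z (ball_sub ht (sphere_subset_closedBall hz))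
  have h3 := Complex.norm_iteratedDeriv_le_of_forall_mem_sphere_norm_le 2
    (by norm_num : (0 : ℝ) < 91 / 100) h1 h2
  have h4 : iteratedDeriv 2 (fun z => h z - h 0) t = deriv (deriv h) t := by
    rw [iteratedDeriv_succ, iteratedDeriv_one]
    congr 1
    funext z
    exact deriv_sub_const (h 0)
  rw [h4] at h3
  refine h3.trans ?_
  norm_num [Nat.factorial]

theorem deriv_close (hd : Disc h) {t : ℂ} (ht : ‖t‖ ≤ 1 / 12) :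
    ‖deriv h t - deriv h 0‖ ≤ 121 / 1000 := by
  have h0 : (0 : ℂ) ∈ closedBall (0 : ℂ) (1 / 12) := by simp
  have h1 : t ∈ closedBall (0 : ℂ) (1 / 12) := by
    rw [mem_closedBall, dist_zero_right]; exact ht
  have h2 := (convex_closedBall (0 : ℂ) (1 / 12)).norm_image_sub_le_of_norm_deriv_le
    (f := deriv h) (C := 145 / 100)
    (fun x hx => diffAt' hd (by rwa [mem_closedBall, dist_zero_right] at hx))
    (fun x hx => deriv2 hd (by rwa [mem_closedBall, dist_zero_right] at hx)) h0 h1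
  rw [sub_zero] at h2
  refine h2.trans ?_
  have : (145 / 100 : ℝ) * ‖t‖ ≤ 145 / 100 * (1 / 12) := by gcongr
  linarith

/-- step 2 -/
theorem sep (hd : Disc h) {t s : ℂ} (ht : ‖t‖ ≤ 1 / 12) (hs : ‖s‖ ≤ 1 / 12) :
    ‖t - s‖ / 8 ≤ ‖h t - h s‖ := by
  have mt : t ∈ closedBall (0 : ℂ) (1 / 12) := by
    rw [mem_closedBall, dist_zero_right]; exact ht
  have ms : s ∈ closedBall (0 : ℂ) (1 / 12) := by
    rw [mem_closedBall, dist_zero_right]; exact hs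
  have hder : ∀ x : ℂ, ‖x‖ ≤ 1 / 12 →
      HasDerivAt (fun z => h z - z • deriv h 0) (deriv h x - deriv h 0) x := by
    intro x hx
    have := (diffAt hd hx).hasDerivAt.fun_sub ((hasDerivAt_id' x).smul_const (deriv h 0))
    rwa [one_smul] at this
  have h2 := (convex_closedBall (0 : ℂ) (1 / 12)).norm_image_sub_le_of_norm_deriv_le
    (f := fun z => h z - z • deriv h 0) (C := 121 / 1000)
    (fun x hx => (hder x (by rwa [mem_closedBall, dist_zero_right] at hx)).differentiableAt)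
    (fun x hx => by
      rw [mem_closedBall, dist_zero_right] at hx
      rw [(hder x hx).deriv]
      exact deriv_close hd hx) ms mt
  have h3 : (t - s) • deriv h 0 = (h t - h s) -
      ((h t - t • deriv h 0) - (h s - s • deriv h 0)) := by
    rw [sub_smul]; abel
  have h4 : ‖(t - s) • deriv h 0‖ ≤ ‖h t - h s‖ + 121 / 1000 * ‖t - s‖ := by
    rw [h3]
    exact (norm_sub_le _ _).trans (by gcongr)
  rw [norm_smul] at h4
  have h5 : ‖t - s‖ * (1 / 4) ≤ ‖t - s‖ * ‖deriv h 0‖ :=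
    mul_le_mul_of_nonneg_left hd.mov (norm_nonneg _)
  have h6 := norm_nonneg (t - s)
  linarith

/-- step 3 -/
theorem ker_bound (hd : Disc h) {t s : ℂ} (ht : ‖t‖ ≤ 1 / 12) (hs : ‖s‖ ≤ 1 / 12) :
    ‖(inner ℂ (h t) (h s) : ℂ)‖ ^ 2 + ‖h t - h s‖ ^ 2 ≤ ‖h t‖ ^ 2 * ‖h s‖ ^ 2 ∧
      ‖h t‖ ^ 2 ≤ 34 / 25 ∧ 1 ≤ ‖h t‖ ^ 2 := by
  obtain ⟨p, hp⟩ : ∃ p, p = h t - h 0 := ⟨_, rfl⟩
  obtain ⟨q, hq⟩ : ∃ q, q = h s - h 0 := ⟨_, rfl⟩
  have hx : h t = h 0 + p := by rw [hp]; abel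
  have hy : h s = h 0 + q := by rw [hq]; abel
  have op : inner ℂ (h 0) p = (0 : ℂ) := by rw [hp]; exact hd.orth t (mem_unit ht)
  have oq : inner ℂ (h 0) q = (0 : ℂ) := by rw [hq]; exact hd.orth s (mem_unit hs)
  have op' : inner ℂ p (h 0) = (0 : ℂ) := by
    rw [← inner_conj_symm, op, map_zero]
  have np : ‖p‖ ≤ 3 / 5 := by rw [hp]; exact hd.le t (mem_unit ht)
  have nx : ‖h t‖ ^ 2 = 1 + ‖p‖ ^ 2 := by
    rw [hx, norm_add_sq (𝕜 := ℂ), op, hd.unit]; simp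
  have ny : ‖h s‖ ^ 2 = 1 + ‖q‖ ^ 2 := by
    rw [hy, norm_add_sq (𝕜 := ℂ), oq, hd.unit]; simp
  have hin : (inner ℂ (h t) (h s) : ℂ) = 1 + inner ℂ p q := by
    rw [hx, hy, inner_add_left, inner_add_right, inner_add_right, oq, op',
      inner_self_eq_norm_sq_to_K, hd.unit]
    simp
  have hz : ‖(1 + inner ℂ p q : ℂ)‖ ^ 2 = 1 + 2 * (inner ℂ p q : ℂ).re + ‖(inner ℂ p q : ℂ)‖ ^ 2 := by
    rw [Complex.sq_norm, Complex.sq_norm, Complex.normSq_apply, Complex.normSq_apply]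
    simp
    ring
  have hxy : ‖h t - h s‖ ^ 2 = ‖p‖ ^ 2 - 2 * (inner ℂ p q : ℂ).re + ‖q‖ ^ 2 := by
    have : h t - h s = p - q := by rw [hx, hy]; abel
    rw [this, norm_sub_sq (𝕜 := ℂ)]
    rfl
  have hcs : ‖(inner ℂ p q : ℂ)‖ ^ 2 ≤ ‖p‖ ^ 2 * ‖q‖ ^ 2 := by
    rw [← mul_pow]
    exact pow_le_pow_left₀ (norm_nonneg _) (norm_inner_le_norm p q) 2
  refine ⟨?_, ?_, ?_⟩
  · rw [hin, hz, hxy, nx, ny]
    nlinarith
  · rw [nx]
    have : ‖p‖ ^ 2 ≤ (3 / 5) ^ 2 := pow_le_pow_left₀ (norm_nonneg _) np 2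
    norm_num at this ⊢
    linarith
  · rw [nx]; nlinarith [sq_nonneg ‖p‖]

/-- the kernel at two points of the disc -/
theorem kernel_le (hd : Disc h) {t s : ℂ} (ht : ‖t‖ ≤ 1 / 12) (hs : ‖s‖ ≤ 1 / 12) :
    (‖(inner ℂ (h t) (h s) : ℂ)‖ / (‖h t‖ * ‖h s‖)) ^ 2 ≤
      Real.exp (-(625 / 73984 * ‖t - s‖ ^ 2)) := by
  obtain ⟨h1, h2, h3⟩ := ker_bound hd ht hs
  obtain ⟨-, h4, h5⟩ := ker_bound hd hs ht
  have hsep := sep hd ht hs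
  have hsep2 : ‖t - s‖ ^ 2 / 64 ≤ ‖h t - h s‖ ^ 2 := by
    have := pow_le_pow_left₀ (by positivity) hsep 2
    rw [div_pow] at this
    norm_num at this ⊢
    linarith
  have hpos : 0 < ‖h t‖ ^ 2 * ‖h s‖ ^ 2 := by positivity
  have hle : ‖h t‖ ^ 2 * ‖h s‖ ^ 2 ≤ 34 / 25 * (34 / 25) := by gcongr
  rw [div_pow, mul_pow]
  have e1 : ‖(inner ℂ (h t) (h s) : ℂ)‖ ^ 2 / (‖h t‖ ^ 2 * ‖h s‖ ^ 2) ≤
      1 - 625 / 73984 * ‖t - s‖ ^ 2 := by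
    rw [div_le_iff₀ hpos]
    have : 625 / 73984 * ‖t - s‖ ^ 2 * (‖h t‖ ^ 2 * ‖h s‖ ^ 2) ≤
        625 / 73984 * ‖t - s‖ ^ 2 * (34 / 25 * (34 / 25)) := by gcongr
    nlinarith
  refine e1.trans ?_
  have := Real.add_one_le_exp (-(625 / 73984 * ‖t - s‖ ^ 2))
  linarith

theorem inner_uv (t s : ℂ) :
    ‖∑ k, (uv h t) k * conj ((uv h s) k)‖ = ‖(inner ℂ (h t) (h s) : ℂ)‖ / (‖h t‖ * ‖h s‖) := by
  have h1 : ∑ k, (uv h t) k * conj ((uv h s) k) = inner ℂ (uv h s) (uv h t) := by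
    rw [PiLp.inner_apply]
    rfl
  rw [h1, uv, uv, inner_smul_left, inner_smul_right, norm_mul, norm_mul, norm_inner_symm (h s)]
  simp only [RCLike.norm_conj, Complex.norm_real, norm_inv, norm_norm]
  rw [div_eq_mul_inv, mul_inv]
  ring

theorem term_le (hd : Disc h) {d : ℕ} (hd1 : 1 ≤ d) {m1 : ℕ} (i j : Fin m1 × Fin m1)
    (hi : ‖pt d i‖ ≤ 1 / 12) (hj : ‖pt d j‖ ≤ 1 / 12) :
    ‖(∑ k, (uv h (pt d i)) k * conj ((uv h (pt d j)) k)) ^ d‖ ≤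
      Real.exp (-3 * (((i.1 : ℕ) : ℝ) - ((j.1 : ℕ) : ℝ)) ^ 2) *
        Real.exp (-3 * (((i.2 : ℕ) : ℝ) - ((j.2 : ℕ) : ℝ)) ^ 2) := by
  rw [norm_pow, inner_uv]
  set ρ := ‖(inner ℂ (h (pt d i)) (h (pt d j)) : ℂ)‖ / (‖h (pt d i)‖ * ‖h (pt d j)‖) with hρ
  have hρ0 : 0 ≤ ρ := by positivity
  have h1 := kernel_le hd hi hj
  rw [← hρ] at h1
  have h2 : (ρ ^ d) ^ 2 ≤ Real.exp (-(625 / 73984 * ‖pt d i - pt d j‖ ^ 2)) ^ d := by
    rw [← pow_mul, mul_comm, pow_mul]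
    exact pow_le_pow_left₀ (by positivity) h1 d
  have h3 : ‖pt d i - pt d j‖ ^ 2 = 729 / d *
      ((((i.1 : ℕ) : ℝ) - ((j.1 : ℕ) : ℝ)) ^ 2 + (((i.2 : ℕ) : ℝ) - ((j.2 : ℕ) : ℝ)) ^ 2) := by
    have : pt d i - pt d j = ((27 / Real.sqrt d : ℝ) : ℂ) *
        (((((i.1 : ℕ) : ℝ) - ((j.1 : ℕ) : ℝ) : ℝ) : ℂ) +
          ((((i.2 : ℕ) : ℝ) - ((j.2 : ℕ) : ℝ) : ℝ) : ℂ) * Complex.I) := by
      simp only [pt]; push_cast; ring
    rw [this, norm_mul, mul_pow, Complex.norm_real, Complex.sq_norm, Complex.normSq_add_mul_I,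
      Real.norm_eq_abs, sq_abs, div_pow, Real.sq_sqrt (by positivity)]
    norm_num
  have hdpos : (0 : ℝ) < d := by exact_mod_cast hd1
  rw [← Real.exp_add]
  have h4 : (ρ ^ d) ^ 2 ≤ Real.exp (-3 * (((i.1 : ℕ) : ℝ) - ((j.1 : ℕ) : ℝ)) ^ 2 +
      -3 * (((i.2 : ℕ) : ℝ) - ((j.2 : ℕ) : ℝ)) ^ 2) ^ 2 := by
    refine h2.trans ?_
    rw [← Real.exp_nat_mul, ← Real.exp_nat_mul, h3]
    apply Real.exp_le_exp.mpr
    have e1 : (d : ℝ) * -(625 / 73984 * (729 / d *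
      ((((i.1 : ℕ) : ℝ) - ((j.1 : ℕ) : ℝ)) ^ 2 + (((i.2 : ℕ) : ℝ) - ((j.2 : ℕ) : ℝ)) ^ 2))) =
      -(625 * 729 / 73984 *
      ((((i.1 : ℕ) : ℝ) - ((j.1 : ℕ) : ℝ)) ^ 2 + (((i.2 : ℕ) : ℝ) - ((j.2 : ℕ) : ℝ)) ^ 2)) := by
      field_simp
    rw [e1]
    push_cast
    nlinarith [sq_nonneg (((i.1 : ℕ) : ℝ) - ((j.1 : ℕ) : ℝ)),
      sq_nonneg (((i.2 : ℕ) : ℝ) - ((j.2 : ℕ) : ℝ))]
  exact (sq_le_sq₀ (by positivity) (by positivity)).mp h4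

/-! ### the sum over the grid -/

theorem exp3 : Real.exp (-3) ≤ 1 / 20 := by
  have h1 : (2.7182818283 : ℝ) < Real.exp 1 := Real.exp_one_gt_d9
  have h2 : Real.exp 3 = Real.exp 1 ^ 3 := by
    rw [← Real.exp_nat_mul]; norm_num
  have h3 : (20 : ℝ) ≤ Real.exp 3 := by
    rw [h2]
    calc (20 : ℝ) ≤ 2.7182818283 ^ 3 := by norm_num
      _ ≤ Real.exp 1 ^ 3 := pow_le_pow_left₀ (by norm_num) h1.le 3
  rw [Real.exp_neg]
  rw [inv_eq_one_div]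
  exact one_div_le_one_div_of_le (by norm_num) h3

theorem exp_sq (k : ℕ) : Real.exp (-3 * (k : ℝ) ^ 2) ≤ (1 / 20) ^ k := by
  have h1 : Real.exp (-3 * (k : ℝ) ^ 2) ≤ Real.exp (-3) ^ k := by
    rw [← Real.exp_nat_mul]
    apply Real.exp_le_exp.mpr
    have : (k : ℝ) ≤ (k : ℝ) ^ 2 := by
      rcases Nat.eq_zero_or_pos k with hk | hk
      · simp [hk]
      · have : (1 : ℝ) ≤ k := by exact_mod_cast hk
        nlinarith
    linarith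
  exact h1.trans (pow_le_pow_left₀ (Real.exp_pos _).le exp3 k)

theorem geo (n : ℕ) : ∑ k ∈ Finset.range n, (1 / 20 : ℝ) ^ k ≤ 20 / 19 := by
  have := geom_sum_eq (by norm_num : (1 / 20 : ℝ) ≠ 1) n
  rw [this]
  have h1 : (0 : ℝ) < (1 / 20) ^ n := by positivity
  have h2 : ((1 / 20 : ℝ) ^ n - 1) / (1 / 20 - 1) = 20 / 19 * (1 - (1 / 20) ^ n) := by
    ring
  rw [h2]
  linarith

theorem line (n : ℕ) (a : Fin n) :
    ∑ b : Fin n, Real.exp (-3 * (((a : ℕ) : ℝ) - ((b : ℕ) : ℝ)) ^ 2) ≤ 21 / 19 := by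
  rw [Fin.sum_univ_eq_sum_range (fun b => Real.exp (-3 * (((a : ℕ) : ℝ) - (b : ℝ)) ^ 2)) n]
  have ha : (a : ℕ) + 1 ≤ n := a.isLt
  rw [← Finset.sum_range_add_sum_Ico _ ha]
  have h1 : ∑ b ∈ Finset.range ((a : ℕ) + 1), Real.exp (-3 * (((a : ℕ) : ℝ) - (b : ℝ)) ^ 2) ≤
      20 / 19 := by
    rw [← Finset.sum_range_reflect]
    refine (Finset.sum_le_sum (g := fun k => (1 / 20 : ℝ) ^ k) fun k hk => ?_).trans (geo _)
    rw [Finset.mem_range] at hk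
    refine le_of_eq_of_le ?_ (exp_sq k)
    congr 2
    have : ((a : ℕ) + 1 - 1 - k : ℕ) = (a : ℕ) - k := by omega
    rw [this, Nat.cast_sub (by omega)]
    ring
  have h2 : ∑ b ∈ Finset.Ico ((a : ℕ) + 1) n, Real.exp (-3 * (((a : ℕ) : ℝ) - (b : ℝ)) ^ 2) ≤
      1 / 19 := by
    rw [Finset.sum_Ico_eq_sum_range]
    have h3 : ∀ k ∈ Finset.range (n - ((a : ℕ) + 1)),
        Real.exp (-3 * (((a : ℕ) : ℝ) - (((a : ℕ) + 1 + k : ℕ) : ℝ)) ^ 2) ≤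
          1 / 20 * (1 / 20 : ℝ) ^ k := by
      intro k _
      have := (exp_sq (k + 1)).trans_eq (pow_succ' (1 / 20 : ℝ) k)
      refine le_of_eq_of_le ?_ this
      congr 2
      push_cast
      ring
    refine (Finset.sum_le_sum h3).trans ?_
    rw [← Finset.mul_sum]
    have := geo (n - ((a : ℕ) + 1))
    linarith
  linarith

theorem gridIn : GridIn := by
  intro d m1 hd1 hm i
  have hs : 0 < Real.sqrt d := Real.sqrt_pos.mpr (by exact_mod_cast hd1)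
  have h1 : ((i.1 : ℕ) : ℝ) ≤ (m1 : ℝ) - 1 := by
    have := i.1.isLt
    have h2 : ((i.1 : ℕ) : ℝ) + 1 ≤ m1 := by exact_mod_cast this
    linarith
  have h2 : ((i.2 : ℕ) : ℝ) ≤ (m1 : ℝ) - 1 := by
    have := i.2.isLt
    have h2 : ((i.2 : ℕ) : ℝ) + 1 ≤ m1 := by exact_mod_cast this
    linarith
  have h0 : (0 : ℝ) ≤ ((i.1 : ℕ) : ℝ) := by positivity
  have h0' : (0 : ℝ) ≤ ((i.2 : ℕ) : ℝ) := by positivity
  have h3 : ‖pt d i‖ ^ 2 = (27 / Real.sqrt d) ^ 2 * (((i.1 : ℕ) : ℝ) ^ 2 + ((i.2 : ℕ) : ℝ) ^ 2) := by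
    have : pt d i = ((27 / Real.sqrt d : ℝ) : ℂ) *
        (((((i.1 : ℕ) : ℝ) : ℝ) : ℂ) + ((((i.2 : ℕ) : ℝ) : ℝ) : ℂ) * Complex.I) := by
      simp only [pt]; push_cast; ring
    rw [this, norm_mul, mul_pow, Complex.norm_real, Complex.sq_norm, Complex.normSq_add_mul_I,
      Real.norm_eq_abs, sq_abs]
  have h4 : ‖pt d i‖ ^ 2 ≤ (1 / 12) ^ 2 := by
    rw [h3]
    have h5 : ((i.1 : ℕ) : ℝ) ^ 2 + ((i.2 : ℕ) : ℝ) ^ 2 ≤ 2 * (Real.sqrt d / 459) ^ 2 := by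
      have e1 : ((i.1 : ℕ) : ℝ) ≤ Real.sqrt d / 459 := by linarith
      have e2 : ((i.2 : ℕ) : ℝ) ≤ Real.sqrt d / 459 := by linarith
      have e3 := pow_le_pow_left₀ h0 e1 2
      have e4 := pow_le_pow_left₀ h0' e2 2
      linarith
    calc (27 / Real.sqrt d) ^ 2 * (((i.1 : ℕ) : ℝ) ^ 2 + ((i.2 : ℕ) : ℝ) ^ 2)
        ≤ (27 / Real.sqrt d) ^ 2 * (2 * (Real.sqrt d / 459) ^ 2) := by gcongr
      _ = 2 / 289 := by field_simp; norm_num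
      _ ≤ (1 / 12) ^ 2 := by norm_num
  exact (sq_le_sq₀ (norm_nonneg _) (by norm_num)).mp h4

theorem grid : Grid := by
  intro m d m1 hd1 hm h hd i
  have hin := gridIn d m1 hd1 hm
  have h1 : ∑ j ∈ Finset.univ.erase i,
      ‖(∑ k, (uv h (pt d i)) k * conj ((uv h (pt d j)) k)) ^ d‖ ≤
      ∑ j ∈ Finset.univ.erase i,
        Real.exp (-3 * (((i.1 : ℕ) : ℝ) - ((j.1 : ℕ) : ℝ)) ^ 2) *
        Real.exp (-3 * (((i.2 : ℕ) : ℝ) - ((j.2 : ℕ) : ℝ)) ^ 2) :=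
    Finset.sum_le_sum fun j _ => term_le hd hd1 i j (hin i) (hin j)
  refine h1.trans ?_
  have h2 := Finset.add_sum_erase Finset.univ (fun j : Fin m1 × Fin m1 =>
        Real.exp (-3 * (((i.1 : ℕ) : ℝ) - ((j.1 : ℕ) : ℝ)) ^ 2) *
        Real.exp (-3 * (((i.2 : ℕ) : ℝ) - ((j.2 : ℕ) : ℝ)) ^ 2)) (Finset.mem_univ i)
  have h3 : ∑ j : Fin m1 × Fin m1,
        Real.exp (-3 * (((i.1 : ℕ) : ℝ) - ((j.1 : ℕ) : ℝ)) ^ 2) *
        Real.exp (-3 * (((i.2 : ℕ) : ℝ) - ((j.2 : ℕ) : ℝ)) ^ 2) =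
      (∑ b : Fin m1, Real.exp (-3 * (((i.1 : ℕ) : ℝ) - ((b : ℕ) : ℝ)) ^ 2)) *
      ∑ b : Fin m1, Real.exp (-3 * (((i.2 : ℕ) : ℝ) - ((b : ℕ) : ℝ)) ^ 2) := by
    rw [Finset.sum_mul_sum, Fintype.sum_prod_type]
  have h4 := line m1 i.1
  have h5 := line m1 i.2
  have h6 : (∑ b : Fin m1, Real.exp (-3 * (((i.1 : ℕ) : ℝ) - ((b : ℕ) : ℝ)) ^ 2)) *
      ∑ b : Fin m1, Real.exp (-3 * (((i.2 : ℕ) : ℝ) - ((b : ℕ) : ℝ)) ^ 2) ≤ 21 / 19 * (21 / 19) :=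
    mul_le_mul h4 h5 (Finset.sum_nonneg fun _ _ => (Real.exp_pos _).le) (by norm_num)
  simp only [sub_self, ne_eq, OfNat.ofNat_ne_zero, not_false_eq_true, zero_pow, mul_zero,
    Real.exp_zero, mul_one] at h2
  rw [h3] at h2
  linarith

end Pool.Agent.H77.RK
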